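import Pool.Agent.Work.MP_ce2d68_st.Interface

set_option autoImplicit false

open Polynomial Filter Topology
open scoped ComplexConjugate

namespace Pool.Agent.Work.MP_ce2d68_st.helper70

theorem stmt_JEN : Stmt_JEN := by
  intro f hf h0
  have hf' : AnalyticOnNhd ℂ f (Metric.closedBall 0 |(1 : ℝ)|) := by simpa using hf
  have hJ := hf'.circleAverage_log_norm one_ne_zero h0
  set D := MeromorphicOn.divisor f (Metric.closedBall (0 : ℂ) |(1 : ℝ)|) with hD
  have hfin := D.finiteSupport (isCompact_closedBall (0 : ℂ) |(1 : ℝ)|)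
  have hnn : ∀ u : ℂ, 0 ≤ (D u : ℝ) * Real.log (1 * ‖0 - u‖⁻¹) := by
    intro u
    by_cases hu : u ∈ Metric.closedBall (0 : ℂ) |(1 : ℝ)|
    · apply mul_nonneg
      · have := MeromorphicOn.AnalyticOnNhd.divisor_nonneg hf' u
        exact_mod_cast this
      · simp only [one_mul, zero_sub, norm_neg]
        rw [Real.log_inv, neg_nonneg]
        apply Real.log_nonpos (norm_nonneg _)
        simpa using hu
    · rw [D.apply_eq_zero_of_notMem hu]
      simp
  have hsup : (Function.support fun u : ℂ => (D u : ℝ) * Real.log (1 * ‖0 - u‖⁻¹)) ⊆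
      (hfin.toFinset : Set ℂ) := by
    intro u hu
    simp only [Set.Finite.coe_toFinset, Function.mem_support]
    intro h
    apply hu
    simp [h]
  have hsum : (∑ᶠ u, (D u : ℝ) * Real.log (1 * ‖0 - u‖⁻¹))
      = ∑ u ∈ hfin.toFinset, (D u : ℝ) * Real.log (1 * ‖0 - u‖⁻¹) :=
    finsum_eq_sum_of_support_subset _ hsup
  have hca : ca (fun w => Real.log ‖f w‖) = Real.circleAverage (fun w => Real.log ‖f w‖) 0 1 := rfl
  rw [hca, hJ, hsum]
  constructor
  · have := Finset.sum_nonneg (s := hfin.toFinset) (fun u _ => hnn u)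
    linarith
  · intro w₀ hw0 hw1 hw2
    have hmem : w₀ ∈ Metric.closedBall (0 : ℂ) |(1 : ℝ)| := by
      simpa using hw1.le
    have hnt : analyticOrderAt f w₀ ≠ ⊤ := by
      apply hf'.analyticOrderAt_ne_top_of_isPreconnected (convex_closedBall _ _).isPreconnected
        (x := 0) (by simp) hmem
      rw [(hf' 0 (by simp)).analyticOrderAt_eq_zero.2 h0]
      simp
    have hne : analyticOrderAt f w₀ ≠ 0 := by
      rw [(hf' w₀ hmem).analyticOrderAt_ne_zero]
      exact hw2
    have h1 : 1 ≤ D w₀ := by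
      rw [hD, MeromorphicOn.AnalyticOnNhd.divisor_apply hf' hmem]
      obtain ⟨n, hn⟩ := ENat.ne_top_iff_exists.1 hnt
      rw [← hn] at hne ⊢
      have hn0 : n ≠ 0 := by
        rintro rfl
        exact hne rfl
      simp only [ENat.map_natCast, WithTop.untop₀_coe]
      omega
    have hin : w₀ ∈ hfin.toFinset := by
      simp only [Set.Finite.mem_toFinset, Function.mem_support]
      omega
    have h2 := Finset.single_le_sum (fun u (_ : u ∈ hfin.toFinset) => hnn u) hin
    have h3 : Real.log (1 / ‖w₀‖) ≤ (D w₀ : ℝ) * Real.log (1 * ‖0 - w₀‖⁻¹) := by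
      simp only [one_mul, zero_sub, norm_neg]
      rw [one_div]
      have h4 : 0 ≤ Real.log (‖w₀‖⁻¹) := by
        rw [Real.log_inv, neg_nonneg]
        exact Real.log_nonpos (norm_nonneg _) hw1.le
      have h5 : (1 : ℝ) ≤ (D w₀ : ℝ) := by exact_mod_cast h1
      nlinarith
    linarith

end Pool.Agent.Work.MP_ce2d68_st.helper70
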