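import Pool.Agent.Work.MP_ce2d68_st.Interface

set_option autoImplicit false

open Polynomial Filter Topology
open scoped ComplexConjugate

namespace Pool.Agent.Work.MP_ce2d68_st.helper70

/-- the large conjugates carry at most the logarithm of the Mahler measure -/
lemma sum_lg_le {P : ℤ[X]} (hm : P.Monic) (c' : ℝ) :
    ∑ a ∈ lg c' P, Real.log ‖a‖ ≤ Real.log (MM P) := by
  have h1 : Real.log (MM P) = ((cp P).roots.map (fun a ↦ Real.posLog ‖a‖)).sum := by
    unfold MM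
    rw [← logMahlerMeasure_eq_log_MahlerMeasure,
      logMahlerMeasure_eq_log_leadingCoeff_add_sum_log_roots]
    have : (cp P).leadingCoeff = 1 := (hm.map (Int.castRingHom ℂ)).leadingCoeff
    rw [this]
    simp
  rw [h1]
  have h2 : ∑ a ∈ lg c' P, Real.log ‖a‖ ≤ ∑ a ∈ rts P, Real.posLog ‖a‖ := by
    calc ∑ a ∈ lg c' P, Real.log ‖a‖ ≤ ∑ a ∈ lg c' P, Real.posLog ‖a‖ :=
          Finset.sum_le_sum (fun a _ => le_max_right _ _)
      _ ≤ ∑ a ∈ rts P, Real.posLog ‖a‖ :=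
          Finset.sum_le_sum_of_subset_of_nonneg (Finset.filter_subset _ _)
            (fun a _ _ => Real.posLog_nonneg)
  refine h2.trans ?_
  have h3 : ∑ a ∈ rts P, Real.posLog ‖a‖
      = ((cp P).roots.dedup.map (fun a ↦ Real.posLog ‖a‖)).sum := rfl
  rw [h3]
  obtain ⟨u, hu⟩ := Multiset.le_iff_exists_add.1 (Multiset.dedup_le (cp P).roots)
  conv_rhs => rw [hu]
  rw [Multiset.map_add, Multiset.sum_add]
  have : 0 ≤ (u.map (fun a ↦ Real.posLog ‖a‖)).sum := by
    apply Multiset.sum_nonneg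
    intro x hx
    rw [Multiset.mem_map] at hx
    obtain ⟨a, _, rfl⟩ := hx
    exact Real.posLog_nonneg
  linarith

lemma Ach.mono {θ x y : ℝ} (h : Ach θ x) (hxy : x ≤ y) : Ach θ y := by
  intro ε hε D
  obtain ⟨F, h1, h2, h3⟩ := h ε hε D
  exact ⟨F, h1, h2, by linarith⟩

/-- the numerical part -/
lemma gain {d v Λ n s B W₀ c q L b c' S : ℝ} (hd : 1 ≤ d) (hL : 0 < L) (hLv : L ≤ v) (hvb : v ≤ b)
    (hn : 0 ≤ n) (hnΛ : n * c' ≤ Λ) (hW : 1 ≤ W₀) (hc : 0 < c) (hq : 2 ≤ q) (hqc : 2 * c ≤ L * q)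
    (hc'1 : W₀ ≤ c') (hc'2 : 8 * W₀ * (2 * b + 2) ≤ L * q * c') (hΛ : L / 3 * d ≤ Λ)
    (hΛd : Λ ≤ d * v)
    (_hs : 0 < s) (hs2 : s * (48 * W₀) ≤ L ^ 2 * q)
    (hS : 0 ≤ S)
    (hD : 24 * W₀ * (S + b + 1 + W₀) ≤ L ^ 2 * q * d)
    (hB1 : Λ + n * (v + 2) + S + Λ / d + 1 ≤ B * W₀)
    (hB2 : B * W₀ ≤ Λ + n * (v + 2) + S + Λ / d + 1 + W₀) :
    n ≤ q * B ∧ (d * v - Λ + 2 * s * d + B * (W₀ + c)) / (d - n + q * B)
      ≤ v - (L * q / 8) / (3 * W₀ / L + q) := by
  have hW0 : 0 < W₀ := by linarith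
  have hd0 : 0 < d := by linarith
  have hq0 : 0 < q := by linarith
  have hΛ0 : 0 < Λ := lt_of_lt_of_le (by positivity) hΛ
  have hc'0 : 0 < c' := by linarith
  have hv0 : 0 < v := by linarith
  have hb0 : 0 < b := by linarith
  have h1 : Λ ≤ B * W₀ := by
    have : 0 ≤ n * (v + 2) := by positivity
    have : 0 ≤ Λ / d := by positivity
    linarith
  have hB0 : 0 < B := by
    by_contra h
    push Not at h
    nlinarith
  have h2 : n ≤ B := by
    have : n * W₀ ≤ B * W₀ := by nlinarith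
    exact le_of_mul_le_mul_right this hW0
  have h3 : n ≤ q * B := by nlinarith
  refine ⟨h3, ?_⟩
  have hden : 0 < d - n + q * B := by linarith
  have hΛdv : Λ / d ≤ b := by
    rw [div_le_iff₀ hd0]
    nlinarith
  -- the small terms
  have h4 : n * (2 * b + 2) ≤ B * (L * q) / 8 := by
    have h5 : n * (2 * b + 2) * (8 * W₀) ≤ L * q * Λ := by
      calc n * (2 * b + 2) * (8 * W₀) = n * (8 * W₀ * (2 * b + 2)) := by ring
        _ ≤ n * (L * q * c') := mul_le_mul_of_nonneg_left hc'2 hn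
        _ = L * q * (n * c') := by ring
        _ ≤ L * q * Λ := mul_le_mul_of_nonneg_left hnΛ (by positivity)
    have h6 : L * q * Λ ≤ L * q * (B * W₀) := mul_le_mul_of_nonneg_left h1 (by positivity)
    have h7 : n * (2 * b + 2) * (8 * W₀) ≤ (B * (L * q) / 8) * (8 * W₀) := by
      calc n * (2 * b + 2) * (8 * W₀) ≤ L * q * (B * W₀) := h5.trans h6
        _ = (B * (L * q) / 8) * (8 * W₀) := by ring
    exact le_of_mul_le_mul_right h7 (by positivity)
  have hBd : L * d ≤ 3 * W₀ * B := by nlinarith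
  have h8 : 2 * s * d ≤ B * (L * q) / 8 := by
    have h9 : 2 * s * d * (24 * W₀) ≤ (B * (L * q) / 8) * (24 * W₀) := by
      calc 2 * s * d * (24 * W₀) = s * (48 * W₀) * d := by ring
        _ ≤ L ^ 2 * q * d := mul_le_mul_of_nonneg_right hs2 hd0.le
        _ = L * q * (L * d) := by ring
        _ ≤ L * q * (3 * W₀ * B) := mul_le_mul_of_nonneg_left hBd (by positivity)
        _ = (B * (L * q) / 8) * (24 * W₀) := by ring
    exact le_of_mul_le_mul_right h9 (by positivity)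
  have h10 : S + b + 1 + W₀ ≤ B * (L * q) / 8 := by
    have h9 : (S + b + 1 + W₀) * (24 * W₀) ≤ (B * (L * q) / 8) * (24 * W₀) := by
      calc (S + b + 1 + W₀) * (24 * W₀) = 24 * W₀ * (S + b + 1 + W₀) := by ring
        _ ≤ L ^ 2 * q * d := hD
        _ = L * q * (L * d) := by ring
        _ ≤ L * q * (3 * W₀ * B) := mul_le_mul_of_nonneg_left hBd (by positivity)
        _ = (B * (L * q) / 8) * (24 * W₀) := by ring
    exact le_of_mul_le_mul_right h9 (by positivity)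
  have h11 : B * c ≤ B * (L * q) / 2 := by nlinarith
  -- numerator
  have hnum : B * (L * q) / 8 ≤ v * (d - n + q * B) - (d * v - Λ + 2 * s * d + B * (W₀ + c)) := by
    have h12 : L * (q * B) ≤ v * (q * B) := mul_le_mul_of_nonneg_right hLv (by positivity)
    have h13 : n * v ≤ n * b := mul_le_mul_of_nonneg_left hvb hn
    nlinarith
  -- denominator
  have hd2 : d - n + q * B ≤ B * (3 * W₀ / L + q) := by
    have : d ≤ B * (3 * W₀ / L) := by
      rw [show B * (3 * W₀ / L) = (3 * W₀ * B) / L by ring, le_div_iff₀ hL]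
      linarith
    nlinarith
  rw [div_le_iff₀ hden]
  have h14 : (L * q / 8) / (3 * W₀ / L + q) * (d - n + q * B) ≤ B * (L * q) / 8 := by
    have hpos : 0 < 3 * W₀ / L + q := by positivity
    calc (L * q / 8) / (3 * W₀ / L + q) * (d - n + q * B)
        ≤ (L * q / 8) / (3 * W₀ / L + q) * (B * (3 * W₀ / L + q)) :=
          mul_le_mul_of_nonneg_left hd2 (by positivity)
      _ = B * (L * q) / 8 := by field_simp
  nlinarith

theorem stmt_STR2 (hFAR : Stmt_FAR) (hST2A : Stmt_ST2A) : Stmt_STR2 := by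
  intro θ θ' L b hθ hθθ' hθ' hL hL1 hb
  obtain ⟨c, hc, hfar⟩ := hFAR θ' (hθ.trans hθθ') hθ'
  obtain ⟨q, hq1⟩ := exists_nat_ge (max 2 (2 * c / L))
  have hq2 : (2 : ℝ) ≤ q := (le_max_left _ _).trans hq1
  have hq2' : 2 ≤ q := by exact_mod_cast hq2
  have hqc : 2 * c ≤ L * q := by
    have := (le_max_right _ _).trans hq1
    rw [div_le_iff₀ hL] at this
    linarith
  obtain ⟨b₁, R₁, b₂, R₂, W₀, hR1, hR2, hW, hz1, hz2, hb12, hWz, hWca⟩ := hfar q hq2'
  obtain ⟨s₀, hs0, hs016, hst⟩ := hST2A θ θ' hθ hθθ' hθ'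
  have hW0 : 0 < W₀ := by linarith
  have hq0 : (0 : ℝ) < q := by linarith
  set c' : ℝ := max (max 1 (Real.log b₂)) (max W₀ (8 * W₀ * (2 * b + 2) / (L * q))) with hc'
  have hc'1 : 1 ≤ c' := (le_max_left _ _).trans (le_max_left _ _)
  have hc'b : Real.log b₂ ≤ c' := (le_max_right _ _).trans (le_max_left _ _)
  have hc'W : W₀ ≤ c' := (le_max_left _ _).trans (le_max_right _ _)
  have hc'8 : 8 * W₀ * (2 * b + 2) ≤ L * q * c' := by
    have : 8 * W₀ * (2 * b + 2) / (L * q) ≤ c' := (le_max_right _ _).trans (le_max_right _ _)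
    rw [div_le_iff₀ (by positivity)] at this
    linarith
  set s : ℝ := min s₀ (L ^ 2 * q / (48 * W₀)) with hs
  have hspos : 0 < s := lt_min hs0 (by positivity)
  have hs1 : s ≤ s₀ := min_le_left _ _
  have hs2 : s * (48 * W₀) ≤ L ^ 2 * q := by
    have : s ≤ L ^ 2 * q / (48 * W₀) := min_le_right _ _
    rwa [le_div_iff₀ (by positivity)] at this
  have hS : 0 ≤ Real.log (1 / s) := by
    apply Real.log_nonneg
    rw [le_div_iff₀ hspos]
    linarith
  obtain ⟨D, hD⟩ := exists_nat_ge (max 1 (24 * W₀ * (Real.log (1 / s) + b + 1 + W₀) / (L ^ 2 * q)))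
  refine ⟨c', (L * q / 8) / (3 * W₀ / L + q), hc'1, by positivity, D, ?_⟩
  intro P hP hdeg hLv hvb hΛ
  have hdR : (D : ℝ) ≤ P.natDegree := by exact_mod_cast hdeg
  have hd1 : (1 : ℝ) ≤ P.natDegree := ((le_max_left _ _).trans hD).trans hdR
  have hd0 : (0 : ℝ) < P.natDegree := by linarith
  have hDd : 24 * W₀ * (Real.log (1 / s) + b + 1 + W₀) ≤ L ^ 2 * q * P.natDegree := by
    have := ((le_max_right _ _).trans hD).trans hdR
    rw [div_le_iff₀ (by positivity)] at this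
    linarith
  have hlv : (P.natDegree : ℝ) * lv P = Real.log (MM P) := by
    unfold lv
    field_simp
  set Λ := ∑ a ∈ lg c' P, Real.log ‖a‖ with hΛdef
  have hΛd : Λ ≤ P.natDegree * lv P := by rw [hlv]; exact sum_lg_le hP.1 c'
  have hnΛ : ((lg c' P).card : ℝ) * c' ≤ Λ := by
    rw [hΛdef, ← nsmul_eq_mul]
    apply Finset.card_nsmul_le_sum
    intro a ha
    exact (Finset.mem_filter.1 ha).2.le
  set E : ℝ := Λ + (lg c' P).card * (lv P + 2) + Real.log (1 / s) + Λ / P.natDegree + 1 with hE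
  have hΛ0 : 0 ≤ Λ := le_trans (by positivity) hΛ
  have hlv0 : 0 < lv P := lt_of_lt_of_le hL hLv
  have hE0 : 0 ≤ E := by positivity
  set B : ℕ := ⌈E / W₀⌉₊ with hB
  have hB1 : E ≤ B * W₀ := by
    have := Nat.le_ceil (E / W₀)
    rwa [div_le_iff₀ hW0] at this
  have hB2 : (B : ℝ) * W₀ ≤ E + W₀ := by
    have h1 := (Nat.ceil_lt_add_one (div_nonneg hE0 hW0.le)).le
    have h2 := mul_le_mul_of_nonneg_right h1 hW0.le
    rw [add_mul, div_mul_cancel₀ _ hW0.ne', one_mul] at h2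
    exact h2
  obtain ⟨hn, hX⟩ := gain (S := Real.log (1 / s)) (B := (B : ℝ)) (n := ((lg c' P).card : ℝ)) (s := s)
    hd1 hL hLv hvb (Nat.cast_nonneg _) hnΛ hW hc hq2 hqc hc'W hc'8 hΛ hΛd hspos hs2 hS hDd hB1 hB2
  have hA := hst s hspos hs1 q b₁ R₁ b₂ R₂ W₀ c c' hq2' hR1 hR2 hW hc hz1 hz2 hb12 hWz hWca hc'1 hc'b
    P hP B hB1 (by exact_mod_cast hn)
  exact Ach.mono hA hX

end Pool.Agent.Work.MP_ce2d68_st.helper70
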